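import Mathlib

set_option autoImplicit false

open Matrix Real MeasureTheory Filter Topology
open scoped ContDiff

namespace Pool.Agent.Results.MP_f6facd_gt.Exists

/-- the manifold `ℝ ^ n` (one global chart) and its tangent spaces -/
abbrev V (n : ℕ) := Fin n → ℝ

section Defs
variable {n : ℕ}

/-- `∂ / ∂ xⁱ` of a function on `TM` -/
noncomputable def dx (i : Fin n) (f : V n → V n → ℝ) (x y : V n) : ℝ :=
  deriv (fun s : ℝ => f (x + s • Pi.single i 1) y) 0

/-- `∂ / ∂ yⁱ` of a function on `TM` -/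
noncomputable def dy (i : Fin n) (f : V n → V n → ℝ) (x y : V n) : ℝ :=
  deriv (fun s : ℝ => f x (y + s • Pi.single i 1)) 0

/-- `F²` -/
def sqr (F : V n → V n → ℝ) (x y : V n) : ℝ := F x y ^ 2

/-- fundamental tensor -/
noncomputable def g (F : V n → V n → ℝ) (x y : V n) : Matrix (Fin n) (Fin n) ℝ :=
  Matrix.of fun i j => 1 / 2 * dy i (dy j (sqr F)) x y

/-- Finsler metric on `ℝ ^ n` -/
def IsFinsler (F : V n → V n → ℝ) : Prop :=
  ContDiffOn ℝ ∞ (fun p : V n × V n => F p.1 p.2) {p | p.2 ≠ 0} ∧ (∀ x y, 0 ≤ F x y) ∧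
    (∀ x y, ∀ c > 0, F x (c • y) = c * F x y) ∧ ∀ x y, y ≠ 0 → (g F x y).PosDef

/-- the isometry group is transitive -/
def Homogeneous (F : V n → V n → ℝ) : Prop :=
  ∀ p q, ∃ φ : V n ≃ V n, ContDiff ℝ ∞ φ ∧ ContDiff ℝ ∞ φ.symm ∧
    (∀ x y, F (φ x) (fderiv ℝ φ x y) = F x y) ∧ φ p = q

/-- `F = √(h(y, y))` for some field of bilinear forms -/
def Quadratic (F : V n → V n → ℝ) : Prop :=
  ∃ h : V n → Matrix (Fin n) (Fin n) ℝ, ∀ x y, F x y = √(y ⬝ᵥ h x *ᵥ y)

/-- geodesic spray coefficients -/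
noncomputable def G (F : V n → V n → ℝ) (i : Fin n) (x y : V n) : ℝ :=
  1 / 4 * ∑ l, (g F x y)⁻¹ i l * (∑ k, dx k (dy l (sqr F)) x y * y k - dx l (sqr F) x y)

/-- Riemann curvature `R_y` -/
noncomputable def R (F : V n → V n → ℝ) (x y : V n) : Matrix (Fin n) (Fin n) ℝ :=
  Matrix.of fun i k => 2 * dx k (G F i) x y - ∑ j, y j * dx j (dy k (G F i)) x y +
    2 * ∑ j, G F j x y * dy j (dy k (G F i)) x y - ∑ j, dy j (G F i) x y * dy k (G F j) x y

/-- flag curvature of the flag `(y, span {y, u})` -/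
noncomputable def K (F : V n → V n → ℝ) (x y u : V n) : ℝ :=
  (u ⬝ᵥ g F x y *ᵥ (R F x y *ᵥ u)) /
    ((y ⬝ᵥ g F x y *ᵥ y) * (u ⬝ᵥ g F x y *ᵥ u) - (y ⬝ᵥ g F x y *ᵥ u) ^ 2)

/-- negative Ricci scalar -/
def NegRicci (F : V (n + 1) → V (n + 1) → ℝ) : Prop :=
  ∀ x y, y ≠ 0 → ∀ e : Fin n → V (n + 1),
    (∀ i j, e i ⬝ᵥ g F x y *ᵥ e j = if i = j then 1 else 0) → (∀ i, y ⬝ᵥ g F x y *ᵥ e i = 0) →
      F x y ^ 2 * ∑ i, K F x y (e i) < 0

/-- Busemann-Hausdorff density -/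
noncomputable def σ (F : V n → V n → ℝ) (x : V n) : ℝ :=
  (volume {y : V n | ∑ i, y i ^ 2 < 1}).toReal / (volume {y : V n | F x y < 1}).toReal

/-- distortion -/
noncomputable def τ (F : V n → V n → ℝ) (x y : V n) : ℝ := log (√(g F x y).det / σ F x)

/-- the S-curvature vanishes: along every geodesic germ the distortion has derivative zero -/
def SZero (F : V n → V n → ℝ) : Prop :=
  ∀ γ v : ℝ → V n, v 0 ≠ 0 →
    (∀ᶠ t in 𝓝 0, HasDerivAt γ (v t) t ∧ HasDerivAt v (fun i => -2 * G F i (γ t) (v t)) t) →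
      HasDerivAt (fun t => τ F (γ t) (v t)) 0 0

end Defs

noncomputable def a (x y : V 4) : ℝ := y 0 ^ 2 + exp (2 * x 0) * y 1 ^ 2
noncomputable def b (x y : V 4) : ℝ := y 2 ^ 2 + exp (2 * x 2) * y 3 ^ 2
noncomputable def Φ (s t : ℝ) : ℝ := 2 * (s + t) + s * t / (s + t)
noncomputable def P (s t : ℝ) : ℝ := 2 + t ^ 2 / (s + t) ^ 2
noncomputable def F (x y : V 4) : ℝ := √(Φ (a x y) (b x y))
noncomputable def α (x y : V 4) : V 4 := ![y 0, exp (2 * x 0) * y 1, 0, 0]
noncomputable def β (x y : V 4) : V 4 := ![0, 0, y 2, exp (2 * x 2) * y 3]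
noncomputable def L (j : Fin 4) (x y : V 4) : ℝ :=
  2 * (P (a x y) (b x y) * α x y j + P (b x y) (a x y) * β x y j)

theorem a0 (x y : V 4) : 0 ≤ a x y := by unfold a; positivity
theorem b0 (x y : V 4) : 0 ≤ b x y := by unfold b; positivity

theorem pos (x : V 4) {y : V 4} (h : y ≠ 0) : 0 < a x y + b x y := by
  refine (add_nonneg (a0 x y) (b0 x y)).lt_of_ne fun h0 => h ?_
  have p := exp_pos (2 * x 0)
  have q := exp_pos (2 * x 2)
  have e0 := sq_nonneg (y 0)
  have e1 := mul_nonneg p.le (sq_nonneg (y 1))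
  have e2 := sq_nonneg (y 2)
  have e3 := mul_nonneg q.le (sq_nonneg (y 3))
  unfold a b at h0
  have f0 : y 0 ^ 2 = 0 := by linarith
  have f1 : exp (2 * x 0) * y 1 ^ 2 = 0 := by linarith
  have f2 : y 2 ^ 2 = 0 := by linarith
  have f3 : exp (2 * x 2) * y 3 ^ 2 = 0 := by linarith
  ext i
  fin_cases i <;> simp_all

theorem sqF : sqr F = fun x y => Φ (a x y) (b x y) := by
  ext x y
  have := a0 x y
  have := b0 x y
  exact sq_sqrt (by unfold Φ; positivity)

section Curve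
variable {X Y : ℝ → V 4} {u v : V 4} (hX : HasDerivAt X u 0) (hY : HasDerivAt Y v 0)
  {A B : ℝ → ℝ} {A' B' : ℝ}

theorem dΦ (hA : HasDerivAt A A' 0) (hB : HasDerivAt B B' 0) (h : 0 < A 0 + B 0) :
    HasDerivAt (fun s => Φ (A s) (B s)) (P (A 0) (B 0) * A' + P (B 0) (A 0) * B') 0 := by
  refine HasDerivAt.congr_deriv (((hA.add hB).const_mul 2).add ((hA.mul hB).div (hA.add hB) h.ne')) ?_
  simp only [P, add_comm (B 0), Pi.mul_apply]
  field_simp
  ring

theorem dP (hA : HasDerivAt A A' 0) (hB : HasDerivAt B B' 0) (h : 0 < A 0 + B 0) :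
    HasDerivAt (fun s => P (A s) (B s)) (2 * B 0 * (A 0 * B' - B 0 * A') / (A 0 + B 0) ^ 3) 0 := by
  refine HasDerivAt.congr_deriv (((hB.pow 2).div ((hA.add hB).pow 2) (pow_pos h 2).ne').const_add 2) ?_
  simp only [Pi.add_apply, Pi.pow_apply]
  field_simp
  ring

include hX in
theorem dE (i : Fin 4) :
    HasDerivAt (fun s => exp (2 * X s i)) (exp (2 * X 0 i) * (2 * u i)) 0 :=
  ((hasDerivAt_pi.1 hX i).const_mul 2).exp

include hX hY

theorem da : HasDerivAt (fun s => a (X s) (Y s))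
    (2 * (Y 0 0 * v 0 + exp (2 * X 0 0) * Y 0 1 * (v 1 + Y 0 1 * u 0))) 0 := by
  refine HasDerivAt.congr_deriv (((hasDerivAt_pi.1 hY 0).pow 2).add ((dE hX 0).mul ((hasDerivAt_pi.1 hY 1).pow 2))) ?_
  simp
  ring

theorem db : HasDerivAt (fun s => b (X s) (Y s))
    (2 * (Y 0 2 * v 2 + exp (2 * X 0 2) * Y 0 3 * (v 3 + Y 0 3 * u 2))) 0 := by
  refine HasDerivAt.congr_deriv (((hasDerivAt_pi.1 hY 2).pow 2).add ((dE hX 2).mul ((hasDerivAt_pi.1 hY 3).pow 2))) ?_
  simp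
  ring

theorem dα (j : Fin 4) : HasDerivAt (fun s => α (X s) (Y s) j)
    (![v 0, exp (2 * X 0 0) * (v 1 + 2 * u 0 * Y 0 1), 0, 0] j) 0 := by
  fin_cases j
  · exact hasDerivAt_pi.1 hY 0
  · refine HasDerivAt.congr_deriv ((dE hX 0).mul (hasDerivAt_pi.1 hY 1)) ?_
    simp
    ring
  all_goals exact hasDerivAt_const _ _

theorem dβ (j : Fin 4) : HasDerivAt (fun s => β (X s) (Y s) j)
    (![0, 0, v 2, exp (2 * X 0 2) * (v 3 + 2 * u 2 * Y 0 3)] j) 0 := by
  fin_cases j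
  · exact hasDerivAt_const _ _
  · exact hasDerivAt_const _ _
  · exact hasDerivAt_pi.1 hY 2
  · refine HasDerivAt.congr_deriv ((dE hX 2).mul (hasDerivAt_pi.1 hY 3)) ?_
    simp
    ring

end Curve

theorem line (x : V 4) (i : Fin 4) :
    HasDerivAt (fun s : ℝ => x + s • Pi.single i (1 : ℝ)) (Pi.single i 1) 0 := by
  simpa using ((hasDerivAt_id (0 : ℝ)).smul_const (Pi.single i (1 : ℝ) : V 4)).const_add x

theorem dy_congr {f f' : V 4 → V 4 → ℝ} (h : ∀ x y, y ≠ 0 → f x y = f' x y) (i : Fin 4) (x : V 4)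
    {y : V 4} (hy : y ≠ 0) : dy i f x y = dy i f' x y := by
  refine EventuallyEq.deriv_eq ?_
  filter_upwards [(line y i).continuousAt.eventually_ne (y := 0) (by simpa using hy)] with s hs
    using h _ _ hs

theorem dx_congr {f f' : V 4 → V 4 → ℝ} (h : ∀ x y, y ≠ 0 → f x y = f' x y) (i : Fin 4) (x : V 4)
    {y : V 4} (hy : y ≠ 0) : dx i f x y = dx i f' x y := by
  simp only [dx, h _ _ hy]

theorem h1 (j : Fin 4) (x y : V 4) (hy : y ≠ 0) : dy j (sqr F) x y = L j x y := by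
  have c := hasDerivAt_const (0 : ℝ) x
  rw [sqF, dy, (dΦ (da c (line y j)) (db c (line y j)) (by simpa using pos x hy)).deriv]
  fin_cases j <;> simp [L, α, β] <;> ring

noncomputable def μ (x y : V 4) : V 4 := a x y • β x y - b x y • α x y

theorem h2 (x : V 4) {y : V 4} (hy : y ≠ 0) : g F x y =
    diagonal ![P (a x y) (b x y), P (a x y) (b x y) * exp (2 * x 0), P (b x y) (a x y),
      P (b x y) (a x y) * exp (2 * x 2)] - (4 / (a x y + b x y) ^ 3) • vecMulVec (μ x y) (μ x y) := by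
  ext i j
  have c := hasDerivAt_const (0 : ℝ) x
  have l := line y i
  have p := pos x hy
  have := (((dP (da c l) (db c l) (by simpa using p)).mul (dα c l j)).add
    ((dP (db c l) (da c l) (by simpa [add_comm] using p)).mul (dβ c l j))).const_mul 2
  rw [g, of_apply, dy_congr (h1 j) i x hy, dy]
  refine (congrArg _ this.deriv).trans ?_
  simp only [zero_smul, add_zero, add_comm (b x y)]
  fin_cases i <;> fin_cases j <;> simp [μ, α, β] <;> field_simp <;> ring

theorem P2 (s t : ℝ) : 2 ≤ P s t := le_add_of_nonneg_right (by positivity)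

theorem quad (x : V 4) {y : V 4} (hy : y ≠ 0) (u : V 4) :
    star u ⬝ᵥ g F x y *ᵥ u = P (a x y) (b x y) * a x u + P (b x y) (a x y) * b x u -
      4 / (a x y + b x y) ^ 3 * (a x y * (β x y ⬝ᵥ u) - b x y * (α x y ⬝ᵥ u)) ^ 2 := by
  rw [h2 x hy, a.eq_1 x u, b.eq_1 x u]
  simp [dotProduct, mulVec, Fin.sum_univ_four, μ, α, β]
  ring

theorem pd (x : V 4) {y : V 4} (hy : y ≠ 0) : (g F x y).PosDef := by
  have p := pos x hy
  refine PosDef.of_dotProduct_mulVec_pos ?_ fun u hu => ?_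
  · rw [h2 x hy]
    ext i j
    fin_cases i <;> fin_cases j <;> simp [vecMulVec_apply, mul_comm]
  have q := pos x hu
  have e := quad x hy u
  have c1 : (α x y ⬝ᵥ u) ^ 2 ≤ a x y * a x u := by
    simp only [a, α, dotProduct, Fin.sum_univ_four]
    simp
    nlinarith [mul_nonneg (exp_pos (2 * x 0)).le (sq_nonneg (y 0 * u 1 - y 1 * u 0))]
  have c2 : (β x y ⬝ᵥ u) ^ 2 ≤ b x y * b x u := by
    simp only [b, β, dotProduct, Fin.sum_univ_four]
    simp
    nlinarith [mul_nonneg (exp_pos (2 * x 2)).le (sq_nonneg (y 2 * u 3 - y 3 * u 2))]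
  rw [e]
  have := a0 x y
  have := b0 x y
  have := a0 x u
  have := b0 x u
  have := P2 (a x y) (b x y)
  have := P2 (b x y) (a x y)
  generalize a x y = s, b x y = t, a x u = s', b x u = t', α x y ⬝ᵥ u = k, β x y ⬝ᵥ u = l at *
  have c3 : 4 / (s + t) ^ 3 * (s * l - t * k) ^ 2 ≤ s' + t' := by
    rw [div_mul_eq_mul_div, div_le_iff₀ (by positivity)]
    have d2 : (s * l - t * k) ^ 2 ≤ (s + t) * (s * t) * (s' + t') := by
      have e1 : (s * l - t * k) ^ 2 ≤ (s + t) * (s * l ^ 2 + t * k ^ 2) := by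
        nlinarith [mul_nonneg (mul_nonneg ‹0 ≤ s› ‹0 ≤ t›) (sq_nonneg (k + l))]
      refine e1.trans ?_
      rw [mul_assoc]
      refine mul_le_mul_of_nonneg_left ?_ p.le
      nlinarith [mul_le_mul_of_nonneg_left c1 ‹0 ≤ t›, mul_le_mul_of_nonneg_left c2 ‹0 ≤ s›]
    nlinarith [mul_nonneg (mul_nonneg p.le q.le) (sq_nonneg (s - t))]
  nlinarith

noncomputable def G' (i : Fin 4) (x y : V 4) : ℝ :=
  ![-exp (2 * x 0) * y 1 ^ 2 / 2, y 0 * y 1, -exp (2 * x 2) * y 3 ^ 2 / 2, y 2 * y 3] i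

theorem h5 (i : Fin 4) (x y : V 4) (hy : y ≠ 0) : G F i x y = G' i x y := by
  have c := hasDerivAt_const (0 : ℝ) y
  have p := pos x hy
  have e : (fun l => ∑ k, dx k (dy l (sqr F)) x y * y k - dx l (sqr F) x y) =
      g F x y *ᵥ fun i => 4 * G' i x y := by
    ext j
    have e1 := fun k => ((((dP (da (line x k) c) (db (line x k) c) (by simpa using p)).mul
      (dα (line x k) c j)).add ((dP (db (line x k) c) (da (line x k) c)
      (by simpa [add_comm] using p)).mul (dβ (line x k) c j))).const_mul 2).deriv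
    have e2 := fun k => (dx_congr (h1 j) k x hy).trans (e1 k)
    have e3 := (dΦ (da (line x j) c) (db (line x j) c) (by simpa using p)).deriv
    simp only [e2, h2 x hy]
    rw [sqF, dx, e3]
    simp only [zero_smul, add_zero, add_comm (b x y)]
    fin_cases j <;> simp [μ, α, β, G', mulVec, dotProduct, Fin.sum_univ_four] <;> field_simp <;>
      ring
  have := congrFun (congrArg ((g F x y)⁻¹ *ᵥ ·) e) i
  simp only [mulVec_mulVec, nonsing_inv_mul _ (pd x hy).det_pos.ne'.isUnit, one_mulVec] at this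
  rw [G, show G' i x y = 1 / 4 * (4 * G' i x y) by ring, ← this]
  rfl

noncomputable def N (i k : Fin 4) (x y : V 4) : ℝ :=
  !![0, -exp (2 * x 0) * y 1, 0, 0; y 1, y 0, 0, 0; 0, 0, 0, -exp (2 * x 2) * y 3;
    0, 0, y 3, y 2] i k

section Curve
variable {X Y : ℝ → V 4} {u v : V 4} (hX : HasDerivAt X u 0) (hY : HasDerivAt Y v 0)
include hX hY

theorem dG (i : Fin 4) : HasDerivAt (fun s => G' i (X s) (Y s))
    (![-exp (2 * X 0 0) * Y 0 1 * (v 1 + u 0 * Y 0 1), v 0 * Y 0 1 + Y 0 0 * v 1,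
      -exp (2 * X 0 2) * Y 0 3 * (v 3 + u 2 * Y 0 3), v 2 * Y 0 3 + Y 0 2 * v 3] i) 0 := by
  have c := hasDerivAt_pi.1 hY
  fin_cases i
  · refine HasDerivAt.congr_deriv (((dE hX 0).neg.mul ((c 1).pow 2)).div_const 2) ?_
    simp
    ring
  · exact (c 0).mul (c 1)
  · refine HasDerivAt.congr_deriv (((dE hX 2).neg.mul ((c 3).pow 2)).div_const 2) ?_
    simp
    ring
  · exact (c 2).mul (c 3)

theorem dN (i k : Fin 4) : HasDerivAt (fun s => N i k (X s) (Y s))
    (!![0, -exp (2 * X 0 0) * (v 1 + 2 * u 0 * Y 0 1), 0, 0; v 1, v 0, 0, 0;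
      0, 0, 0, -exp (2 * X 0 2) * (v 3 + 2 * u 2 * Y 0 3); 0, 0, v 3, v 2] i k) 0 := by
  have c := hasDerivAt_pi.1 hY
  fin_cases i <;> fin_cases k <;> first
    | exact hasDerivAt_const _ _
    | exact c _
    | (refine HasDerivAt.congr_deriv ((dE hX _).neg.mul (c _)) ?_; simp; ring)

end Curve

theorem h6 (i k : Fin 4) (x y : V 4) (hy : y ≠ 0) : dy k (G F i) x y = N i k x y := by
  rw [dy_congr (h5 i) k x hy, dy, (dG (hasDerivAt_const _ x) (line y k) i).deriv]
  fin_cases i <;> fin_cases k <;> simp [N]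

theorem h7 (x : V 4) {y : V 4} (hy : y ≠ 0) :
    (R F x y).trace = -(a x y + b x y) ∧ R F x y *ᵥ y = 0 := by
  have e : R F x y = !![-exp (2 * x 0) * y 1 ^ 2, exp (2 * x 0) * y 0 * y 1, 0, 0;
      y 0 * y 1, -y 0 ^ 2, 0, 0; 0, 0, -exp (2 * x 2) * y 3 ^ 2, exp (2 * x 2) * y 2 * y 3;
      0, 0, y 2 * y 3, -y 2 ^ 2] := by
    ext i k
    have e1 := (dx_congr (h5 i) k x hy).trans (dG (line x k) (hasDerivAt_const _ y) i).deriv
    have e2 := fun j => (dx_congr (h6 i k) j x hy).trans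
      (dN (line x j) (hasDerivAt_const _ y) i k).deriv
    have e3 := fun j => (dy_congr (h6 i k) j x hy).trans
      (dN (hasDerivAt_const _ x) (line y j) i k).deriv
    simp only [R, of_apply, e1, e2, e3, h6 _ _ x y hy, h5 _ x y hy]
    fin_cases i <;> fin_cases k <;> simp [N, G', Fin.sum_univ_four] <;> ring
  rw [e]
  refine ⟨by simp [trace, Fin.sum_univ_four, a, b]; ring, ?_⟩
  ext i
  fin_cases i <;> simp [mulVec, dotProduct, Fin.sum_univ_four] <;> ring

theorem gyy (x : V 4) {y : V 4} (hy : y ≠ 0) : y ⬝ᵥ g F x y *ᵥ y = F x y ^ 2 := by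
  have p := pos x hy
  have e : y ⬝ᵥ g F x y *ᵥ y = P (a x y) (b x y) * a x y + P (b x y) (a x y) * b x y -
      4 / (a x y + b x y) ^ 3 * (a x y * (y 2 ^ 2 + exp (2 * x 2) * y 3 ^ 2) -
        b x y * (y 0 ^ 2 + exp (2 * x 0) * y 1 ^ 2)) ^ 2 := by
    have := quad x hy y
    simp only [star_trivial] at this
    rw [this]
    congr 5 <;> simp [dotProduct, Fin.sum_univ_four, α, β] <;> ring
  rw [e, ← a, ← b, show F x y ^ 2 = _ from congrFun (congrFun sqF x) y, P, P, Φ, add_comm (b x y)]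
  field_simp
  ring

theorem ric : NegRicci F := by
  intro x y hy e h1 h2
  have p : 0 < F x y ^ 2 := gyy x hy ▸ (pd x hy).dotProduct_mulVec_pos hy
  have sy : ∀ u v : V 4, u ⬝ᵥ g F x y *ᵥ v = v ⬝ᵥ g F x y *ᵥ u := fun u v => by
    rw [dotProduct_mulVec, ← mulVec_transpose, dotProduct_comm]
    exact congrArg (v ⬝ᵥ · *ᵥ u) (pd x hy).isHermitian
  set c : Fin 4 → V 4 := Fin.cons ((F x y)⁻¹ • y) e
  have e0 : ∀ M : Matrix (Fin 4) (Fin 4) ℝ, ∀ i j,
      (of c * M * (of c)ᵀ) i j = c i ⬝ᵥ M *ᵥ c j := fun M i j => by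
    simp only [mul_apply, dotProduct, mulVec, Finset.sum_mul, Finset.mul_sum, of_apply,
      transpose_apply, mul_assoc]
    exact Finset.sum_comm
  have e1 : of c * g F x y * (of c)ᵀ = 1 := by
    ext i j
    rw [e0]
    refine Fin.cases (Fin.cases ?_ (fun j => ?_) j) (fun i => Fin.cases ?_ (fun j => ?_) j) i
    · simp only [c, Fin.cons_zero, smul_dotProduct, mulVec_smul, dotProduct_smul, gyy x hy,
        one_apply_eq, smul_eq_mul]
      have : F x y ≠ 0 := fun h => by simp [h] at p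
      field_simp
    · simp [c, h2, (Fin.succ_ne_zero j).symm]
    · rw [sy]
      simp [c, h2, Fin.succ_ne_zero i]
    · simp [c, h1, one_apply]
  have e2 : (R F x y).trace = ∑ i, e i ⬝ᵥ g F x y *ᵥ (R F x y *ᵥ e i) := by
    rw [show (R F x y).trace = (of c * (g F x y * R F x y) * (of c)ᵀ).trace by
      rw [trace_mul_comm, ← Matrix.mul_assoc (of c), ← Matrix.mul_assoc, mul_eq_one_comm.1 e1,
        Matrix.one_mul], trace, Fin.sum_univ_succ]
    simp only [diag_apply, e0, c, Fin.cons_zero, Fin.cons_succ, ← mulVec_mulVec, mulVec_smul,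
      (h7 x hy).2, mulVec_zero, smul_zero, dotProduct_zero, zero_add]
  simp only [K, h1, h2, gyy x hy, if_true, mul_one, ne_eq, OfNat.ofNat_ne_zero, not_false_eq_true,
    zero_pow, sub_zero, ← Finset.sum_div, ← e2, (h7 x hy).1, mul_div_cancel₀ _ p.ne']
  linarith [pos x hy]

noncomputable def δ (s t : ℝ) : ℝ :=
  P s t * P t s * (P s t * P t s - 4 / (s + t) ^ 3 * (s * t) * (s * P s t + t * P t s))

theorem dt (x : V 4) {y : V 4} (hy : y ≠ 0) :
    (g F x y).det = exp (x 0 + x 2) ^ 2 * δ (a x y) (b x y) := by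
  have e : exp (x 0 + x 2) ^ 2 = exp (2 * x 0) * exp (2 * x 2) := by
    rw [← exp_add, ← exp_nat_mul]
    congr 1
    push_cast
    ring
  rw [h2 x hy, e, δ, μ]
  generalize P (a x y) (b x y) = p, P (b x y) (a x y) = q, 4 / (a x y + b x y) ^ 3 = c
  simp [det_succ_row_zero, Fin.sum_univ_succ, α, β, Fin.succAbove, a, b]
  ring

theorem hσ (x : V 4) : σ F x = exp (x 0 + x 2) * σ F 0 := by
  have e : {y | F x y < 1} = toLin' (diagonal ![1, exp (x 0), 1, exp (x 2)]) ⁻¹'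
      {y | F 0 y < 1} := by
    ext y
    simp [F, a, b, mulVec_diagonal, mul_pow, ← exp_nat_mul]
  have d : LinearMap.det (toLin' (diagonal ![1, exp (x 0), 1, exp (x 2)])) = exp (x 0 + x 2) := by
    simp [Fin.prod_univ_four, exp_add]
  rw [σ, σ, e, Measure.addHaar_preimage_linearMap _ (d ▸ (exp_pos _).ne'), d, ENNReal.toReal_mul,
    ENNReal.toReal_ofReal (abs_nonneg _), abs_of_pos (by positivity)]
  field_simp

theorem sz : SZero F := by
  intro γ v h0 h
  obtain ⟨h1, h2⟩ := h.self_of_nhds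
  have p := pos (γ 0) h0
  have e : (fun t => τ F (γ t) (v t)) =ᶠ[𝓝 0] (fun p : ℝ × ℝ => log (√(δ p.1 p.2) / σ F 0)) ∘
      fun t => (a (γ t) (v t), b (γ t) (v t)) := by
    filter_upwards [h2.continuousAt.eventually_ne h0] with t ht
    rw [τ, dt _ ht, hσ, sqrt_mul (sq_nonneg _), sqrt_sq (exp_pos _).le,
      mul_div_mul_left _ _ (exp_pos _).ne']
    rfl
  refine HasDerivAt.congr_of_eventuallyEq ?_ e
  have d : HasDerivAt (fun t => (a (γ t) (v t), b (γ t) (v t))) 0 0 := by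
    refine HasDerivAt.congr_deriv ((da h1 h2).prodMk (db h1 h2)) ?_
    simp only [h5 _ _ _ h0]
    simp [G']
    constructor <;> ring
  have q : 0 < δ (a (γ 0) (v 0)) (b (γ 0) (v 0)) :=
    (pos_iff_pos_of_mul_pos (dt (γ 0) h0 ▸ (pd _ h0).det_pos)).1 (by positivity)
  have : DifferentiableAt ℝ (fun p : ℝ × ℝ => log (√(δ p.1 p.2) / σ F 0))
      (a (γ 0) (v 0), b (γ 0) (v 0)) := by
    by_cases hs : σ F 0 = 0
    · simp [hs]
    refine DifferentiableAt.log ?_ (div_ne_zero (sqrt_pos.2 q).ne' hs)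
    simp only [div_eq_mul_inv]
    refine (DifferentiableAt.sqrt (f := fun p : ℝ × ℝ => δ p.1 p.2) ?_ q.ne').mul_const _
    have p' := p.trans_eq (add_comm _ _)
    unfold δ P
    fun_prop (disch := positivity)
  simpa using this.hasFDerivAt.comp_hasDerivAt 0 d

theorem aff (d k : V 4) : HasFDerivAt (𝕜 := ℝ) (fun x : V 4 => d * x + k)
    (LinearMap.toContinuousLinearMap (LinearMap.mulLeft ℝ d)) = fun _ => True := by
  ext x
  simpa using (LinearMap.toContinuousLinearMap (LinearMap.mulLeft ℝ d)).hasFDerivAt.add_const k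

theorem result : ∃ F : V 4 → V 4 → ℝ,
    IsFinsler F ∧ Homogeneous F ∧ ¬Quadratic F ∧ NegRicci F ∧ SZero F := by
  refine ⟨F, ⟨fun z hz => ContDiffAt.contDiffWithinAt ?_, fun _ _ => sqrt_nonneg _,
    fun x y c hc => ?_, fun x _ => pd x⟩, fun p q => ?_, ?_, ric, sz⟩
  · have p := pos z.1 hz
    have := a0 z.1 z.2
    have := b0 z.1 z.2
    refine ContDiffAt.sqrt ?_ (by unfold Φ; positivity)
    unfold Φ
    refine ContDiffAt.add ?_ (ContDiffAt.div ?_ ?_ p.ne') <;> unfold a b <;> fun_prop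
  · have e1 : a x (c • y) = c ^ 2 * a x y := by simp [a]; ring
    have e2 : b x (c • y) = c ^ 2 * b x y := by simp [b]; ring
    rw [F, F, e1, e2, ← sqrt_sq hc.le, ← sqrt_mul (sq_nonneg _), sqrt_sq hc.le, Φ, Φ, ← mul_add]
    congr 1
    by_cases h : a x y + b x y = 0
    · simp [h]
    field_simp
  · set d : V 4 := ![1, exp (p 0 - q 0), 1, exp (p 2 - q 2)]
    have hd : ∀ i, d i ≠ 0 := fun i => by fin_cases i <;> simp [d]
    refine ⟨⟨fun x => d * x + (q - d * p), fun x => d⁻¹ * (x - (q - d * p)), fun x => ?_,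
      fun x => ?_⟩, ?_, ?_, fun x y => ?_, by simp⟩
    · ext i
      simp [hd i]
    · ext i
      simp [hd i]
    · change ContDiff ℝ ∞ fun x => d * x + (q - d * p)
      fun_prop
    · change ContDiff ℝ ∞ fun x => d⁻¹ * (x - (q - d * p))
      fun_prop
    have := (of_eq_true (congrFun (aff d (q - d * p)) x)).fderiv
    change F (d * x + (q - d * p)) (fderiv ℝ (fun x => d * x + (q - d * p)) x y) = _
    have e : ∀ s t u w : ℝ, exp (2 * (s + (t - u))) * (exp (u - t) * w) ^ 2 = exp (2 * s) * w ^ 2 :=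
      fun s t u w => by
        rw [mul_pow, ← mul_assoc, ← exp_nat_mul, ← exp_add]
        congr 2
        push_cast
        ring
    rw [this]
    simp [F, a, b, d, e]
  · rintro ⟨h, hh⟩
    have e : ∀ y, y ≠ 0 → Φ (a 0 y) (b 0 y) = y ⬝ᵥ h 0 *ᵥ y := fun y hy => by
      have := pos 0 hy
      have := a0 0 y
      have := b0 0 y
      have p : 0 < F 0 y := sqrt_pos.2 (by unfold Φ; positivity)
      rw [← show F 0 y ^ 2 = _ from congrFun (congrFun sqF 0) y, hh 0 y,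
        sq_sqrt (sqrt_pos.1 (hh 0 y ▸ p)).le]
    have e1 := e ![1, 0, 0, 0] (by simp)
    have e2 := e ![0, 0, 1, 0] (by simp)
    have e3 := e ![1, 0, 1, 0] (by simp)
    have e4 := e ![1, 0, -1, 0] (by simp)
    simp [Φ, a, b, dotProduct, mulVec, Fin.sum_univ_four] at e1 e2 e3 e4
    linarith

end Pool.Agent.Results.MP_f6facd_gt.Exists
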